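import Mathlib

/-!
# Fusion of perfect sets
-/

set_option autoImplicit false

namespace Pool.Agent.J6H10.PF

open Set Filter Metric Function CantorScheme
open scoped ENNReal Topology

variable {X : Type*} [MetricSpace X]

/-- nonempty perfect sets -/
def PN (Q : Set X) : Prop := Perfect Q ∧ Q.Nonempty

/-- small perfect pieces in an open set -/
theorem piece {Q : Set X} (hQ : PN Q) {U : Set X} (hU : IsOpen U) {x : X} (hx : x ∈ Q) (hxU : x ∈ U) :
    ∃ A, A ⊆ Q ∧ PN A ∧ A ⊆ U ∧ x ∈ A := by
  obtain ⟨ε, hε, hb⟩ := Metric.isOpen_iff.1 hU x hxU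
  have h1 : x ∈ Metric.ball x (ε / 2) := Metric.mem_ball_self (by positivity)
  have h2 := hQ.1.closure_nhds_inter x hx h1 Metric.isOpen_ball
  refine ⟨closure (Metric.ball x (ε / 2) ∩ Q), ?_, h2, ?_, subset_closure ⟨h1, hx⟩⟩
  · rw [IsClosed.closure_subset_iff hQ.1.closed]
    exact inter_subset_right
  · refine (closure_mono inter_subset_left).trans (Metric.closure_ball_subset_closedBall.trans ?_)
    exact (Metric.closedBall_subset_ball (by linarith)).trans hb

/-- small perfect pieces of small diameter -/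
theorem piece_diam {Q : Set X} (hQ : PN Q) {x : X} (hx : x ∈ Q) {ε : ℝ≥0∞} (hε : 0 < ε) :
    ∃ A, A ⊆ Q ∧ PN A ∧ Metric.ediam A ≤ ε ∧ x ∈ A := by
  obtain ⟨A, h1, h2, h3, h4⟩ := piece hQ (U := Metric.eball x (ε / 2)) Metric.isOpen_eball hx
    (Metric.mem_eball_self (by
      rw [ENNReal.div_pos_iff]
      exact ⟨hε.ne', by simp⟩))
  refine ⟨A, h1, h2, (Metric.ediam_mono h3).trans ((Metric.ediam_eball_le (x := x)).trans ?_), h4⟩
  rw [mul_comm, ENNReal.div_mul_cancel (by norm_num) (by norm_num)]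

/-- a nonempty perfect set has two points -/
theorem two {Q : Set X} (hQ : PN Q) : ∃ x ∈ Q, ∃ y ∈ Q, x ≠ y := by
  obtain ⟨x, hx⟩ := hQ.2
  obtain ⟨y, ⟨-, hy⟩, hne⟩ := preperfect_iff_nhds.1 hQ.1.acc x hx univ univ_mem
  exact ⟨x, hx, y, hy, hne.symm⟩

variable [CompleteSpace X]

/-- **Fusion.** Let every nonempty perfect set contain two disjoint nonempty perfect sets `A`, `B` with `R n A B`, for
every `n`, where `R n` is inherited by subsets. Then every nonempty perfect set contains a nonempty perfect set `Q` such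
that every subset `F` of `Q` with two points at least is contained in some `A ∪ B` with `R n A B` and meets `A` and `B`;
here `n` is as large as one likes if `F` has small diameter. -/
theorem fusion (R : ℕ → Set X → Set X → Prop)
    (hR : ∀ n A B A' B', R n A B → A' ⊆ A → B' ⊆ B → R n A' B')
    {P : Set X} (hP : PN P)
    (hsplit : ∀ n Q, PN Q → Q ⊆ P → ∃ A B, A ⊆ Q ∧ B ⊆ Q ∧ PN A ∧ PN B ∧ Disjoint A B ∧ R n A B) :
    ∃ Q ⊆ P, PN Q ∧ IsCompact Q ∧ ∀ n : ℕ, ∃ δ : ℝ, 0 < δ ∧ ∀ F ⊆ Q, F.Nontrivial →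
      (∀ x ∈ F, ∀ y ∈ F, dist x y < δ) →
      ∃ m, n ≤ m ∧ ∃ A B, R m A B ∧ F ⊆ A ∪ B ∧ (F ∩ A).Nonempty ∧ (F ∩ B).Nonempty := by
  classical
  obtain ⟨u, -, upos', hu⟩ := exists_seq_strictAnti_tendsto' (zero_lt_one' ℝ≥0∞)
  have upos := fun n => (upos' n).1
  let S := Subtype fun E : Set X => PN E ∧ E ⊆ P
  have hsp : ∀ (n : ℕ) (Q : S), ∃ A B : S, A.1 ⊆ Q.1 ∧ B.1 ⊆ Q.1 ∧ Disjoint A.1 B.1 ∧ R n A.1 B.1 ∧
      Metric.ediam A.1 ≤ u n ∧ Metric.ediam B.1 ≤ u n := by
    rintro n ⟨Q, hQ, hQP⟩
    obtain ⟨A, B, hA, hB, hA2, hB2, hd, hr⟩ := hsplit n Q hQ hQP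
    obtain ⟨a, ha⟩ := hA2.2
    obtain ⟨b, hb⟩ := hB2.2
    obtain ⟨A', h1, h2, h3, -⟩ := piece_diam hA2 ha (upos n)
    obtain ⟨B', h4, h5, h6, -⟩ := piece_diam hB2 hb (upos n)
    exact ⟨⟨A', h2, (h1.trans hA).trans hQP⟩, ⟨B', h5, (h4.trans hB).trans hQP⟩, h1.trans hA,
      h4.trans hB, hd.mono h1 h4, hR n A B A' B' hr h1 h4, h3, h6⟩
  choose CA CB hCA hCB hCd hCR hCa hCb using hsp
  let DP : List Bool → S := fun l => by
    induction l with
    | nil => exact ⟨P, hP, Subset.rfl⟩
    | cons a l ih => exact if a then CB l.length ih else CA l.length ih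
  have hDPc : ∀ a l, DP (a :: l) = if a then CB l.length (DP l) else CA l.length (DP l) :=
    fun a l => rfl
  let D : List Bool → Set X := fun l => (DP l).val
  have hDf : ∀ l, D (false :: l) = (CA l.length (DP l)).1 := fun l => rfl
  have hDt : ∀ l, D (true :: l) = (CB l.length (DP l)).1 := fun l => rfl
  have hsub : ∀ l a, D (a :: l) ⊆ D l := by
    intro l a
    cases a
    · rw [hDf]; exact hCA _ _
    · rw [hDt]; exact hCB _ _
  have hanti : ClosureAntitone D :=
    Antitone.closureAntitone (fun l a => hsub l a) fun l => (DP l).2.1.1.closed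
  have hdiam : VanishingDiam D := by
    intro x
    apply tendsto_of_tendsto_of_tendsto_of_le_of_le' tendsto_const_nhds (hu.comp (tendsto_sub_atTop_nat 1))
    · simp
    · rw [eventually_atTop]
      refine ⟨1, fun m (hm : 1 ≤ m) => ?_⟩
      obtain ⟨n, rfl⟩ := Nat.exists_eq_succ_of_ne_zero (Nat.one_le_iff_ne_zero.1 hm)
      simp only [Function.comp_apply, Nat.succ_eq_add_one, Nat.add_sub_cancel]
      rw [PiNat.res_succ]
      cases x n
      · rw [hDf, PiNat.res_length]
        exact hCa _ _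
      · rw [hDt, PiNat.res_length]
        exact hCb _ _
  have hdisj' : CantorScheme.Disjoint D := by
    rintro l (a | a) (b | b) hab <;> try contradiction
    · exact hCd _ _
    · exact (hCd _ _).symm
  have hdom : ∀ {x : ℕ → Bool}, x ∈ (inducedMap D).1 := fun {x} => by
    rw [hanti.map_of_vanishingDiam hdiam fun l => (DP l).2.1.2]
    apply mem_univ
  let f : (ℕ → Bool) → X := fun x => (inducedMap D).2 ⟨x, hdom⟩
  have hfmem : ∀ x n, f x ∈ D (PiNat.res x n) := fun x n => map_mem ⟨_, hdom⟩ n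
  have hfc : Continuous f := by
    apply hdiam.map_continuous.comp
    fun_prop
  have hfi : Function.Injective f := by
    intro x y hxy
    simpa only [← Subtype.val_inj] using hdisj'.map_injective hxy
  have hcomp : IsCompact (range f) := isCompact_range hfc
  -- different sequences close to a given one
  have hne : ∀ (x : ℕ → Bool) (n : ℕ), ∃ y, y ≠ x ∧ PiNat.res y n = PiNat.res x n := by
    intro x n
    refine ⟨Function.update x n (!x n), ?_, ?_⟩
    · intro h
      have := congrFun h n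
      rw [Function.update_self] at this
      cases hx : x n <;> simp [hx] at this
    · refine PiNat.res_eq_res.2 fun m hm => ?_
      rw [Function.update_of_ne (by omega)]
  have hperf : Perfect (range f) := by
    refine ⟨hcomp.isClosed, ?_⟩
    rw [preperfect_iff_nhds]
    rintro _ ⟨x, rfl⟩ U hU
    obtain ⟨ε, hε, hb⟩ := Metric.mem_nhds_iff.1 hU
    obtain ⟨n, hn⟩ := hdiam.dist_lt ε hε x
    obtain ⟨y, hy, hyn⟩ := hne x n
    refine ⟨f y, ⟨hb ?_, y, rfl⟩, fun h => hy (hfi h)⟩
    rw [Metric.mem_ball]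
    exact hn _ (by rw [← hyn]; exact hfmem y n) _ (hfmem x n)
  refine ⟨range f, ?_, ⟨hperf, ⟨f fun _ => true, _, rfl⟩⟩, hcomp, ?_⟩
  · rintro _ ⟨x, rfl⟩
    exact hfmem x 0
  -- splitting of a set with two points
  have hsplitF : ∀ F ⊆ range f, F.Nontrivial → ∀ n : ℕ,
      (∀ x y, f x ∈ F → f y ∈ F → PiNat.res x n = PiNat.res y n) →
      ∃ m, n ≤ m ∧ ∃ A B, R m A B ∧ F ⊆ A ∪ B ∧ (F ∩ A).Nonempty ∧ (F ∩ B).Nonempty := by
    intro F hF hnt n hagree
    obtain ⟨p, hp, q, hq, hpq⟩ := hnt
    obtain ⟨x0, rfl⟩ := hF hp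
    obtain ⟨y0, rfl⟩ := hF hq
    have hxy : x0 ≠ y0 := fun h => hpq (by rw [h])
    -- least length at which the members of `F` do not agree
    have hex : ∃ m, ¬ ∀ x y, f x ∈ F → f y ∈ F → PiNat.res x m = PiNat.res y m := by
      by_contra hcon
      push Not at hcon
      apply hxy
      funext i
      have := hcon (i + 1) x0 y0 hp hq
      exact PiNat.res_eq_res.1 this (Nat.lt_succ_self i)
    set m := Nat.find hex with hm
    have hm1 := Nat.find_spec hex
    have hm2 : ∀ k < m, ∀ x y, f x ∈ F → f y ∈ F → PiNat.res x k = PiNat.res y k := by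
      intro k hk
      have := Nat.find_min hex hk
      push Not at this
      exact this
    rw [← hm] at hm1
    have hm0 : m ≠ 0 := by
      intro h0
      apply hm1
      intro x y _ _
      rw [h0]
      rfl
    obtain ⟨k, hk⟩ := Nat.exists_eq_succ_of_ne_zero hm0
    have hnk : n ≤ k := by
      by_contra hlt
      apply hm1
      intro x y hx hy
      have h1 := hagree x y hx hy
      refine PiNat.res_eq_res.2 fun i hi => PiNat.res_eq_res.1 h1 (by omega)
    have hk2 := hm2 k (by omega)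
    set l := PiNat.res x0 k with hl
    have hll : l.length = k := PiNat.res_length x0 k
    have hcases : ∀ x, f x ∈ F → (x k = false ∧ f x ∈ D (false :: l)) ∨ (x k = true ∧ f x ∈ D (true :: l)) := by
      intro x hx
      have h1 := hfmem x (k + 1)
      rw [PiNat.res_succ, hk2 x x0 hx hp, ← hl] at h1
      cases h2 : x k
      · rw [h2] at h1
        exact Or.inl ⟨rfl, h1⟩
      · rw [h2] at h1
        exact Or.inr ⟨rfl, h1⟩
    refine ⟨k, hnk, D (false :: l), D (true :: l), ?_, ?_, ?_, ?_⟩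
    · rw [hDf, hDt, hll]
      exact hCR _ _
    · intro p hp'
      obtain ⟨x, rfl⟩ := hF hp'
      rcases hcases x hp' with h | h
      · exact Or.inl h.2
      · exact Or.inr h.2
    · by_contra hcon
      rw [Set.not_nonempty_iff_eq_empty, Set.eq_empty_iff_forall_notMem] at hcon
      apply hm1
      have hall : ∀ x, f x ∈ F → x k = true := by
        intro x hx
        rcases hcases x hx with h | h
        · exact absurd ⟨hx, h.2⟩ (hcon _)
        · exact h.1
      intro x y hx hy
      rw [hk]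
      show PiNat.res x (k + 1) = PiNat.res y (k + 1)
      rw [PiNat.res_succ, PiNat.res_succ, hall x hx, hall y hy, hk2 x y hx hy]
    · by_contra hcon
      rw [Set.not_nonempty_iff_eq_empty, Set.eq_empty_iff_forall_notMem] at hcon
      apply hm1
      have hall : ∀ x, f x ∈ F → x k = false := by
        intro x hx
        rcases hcases x hx with h | h
        · exact h.1
        · exact absurd ⟨hx, h.2⟩ (hcon _)
      intro x y hx hy
      rw [hk]
      show PiNat.res x (k + 1) = PiNat.res y (k + 1)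
      rw [PiNat.res_succ, PiNat.res_succ, hall x hx, hall y hy, hk2 x y hx hy]
  intro n
  -- points with different first `n` digits are at positive distance
  obtain ⟨δ, hδ, hδ2⟩ : ∃ δ : ℝ, 0 < δ ∧ ∀ x y : ℕ → Bool, dist (f x) (f y) < δ →
      PiNat.res x n = PiNat.res y n := by
    have hcl : IsCompact {p : (ℕ → Bool) × (ℕ → Bool) | PiNat.res p.1 n ≠ PiNat.res p.2 n} := by
      apply IsClosed.isCompact
      have : {p : (ℕ → Bool) × (ℕ → Bool) | PiNat.res p.1 n ≠ PiNat.res p.2 n} =
          ⋃ i ∈ Finset.range n, {p : (ℕ → Bool) × (ℕ → Bool) | p.1 i ≠ p.2 i} := by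
        ext p
        simp only [mem_setOf_eq, mem_iUnion, Finset.mem_range]
        constructor
        · intro h
          by_contra hcon
          push Not at hcon
          exact h (PiNat.res_eq_res.2 fun {i} hi => hcon i hi)
        · rintro ⟨i, hi, h⟩ h2
          exact h (PiNat.res_eq_res.1 h2 hi)
      rw [this]
      refine isClosed_biUnion_finset fun i _ => ?_
      have h1 : Continuous fun p : (ℕ → Bool) × (ℕ → Bool) => (p.1 i, p.2 i) := by fun_prop
      exact (isClosed_discrete {q : Bool × Bool | q.1 ≠ q.2}).preimage h1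
    rcases Set.eq_empty_or_nonempty {p : (ℕ → Bool) × (ℕ → Bool) | PiNat.res p.1 n ≠ PiNat.res p.2 n}
      with he | hne'
    · refine ⟨1, one_pos, fun x y _ => ?_⟩
      by_contra hcon
      have : (x, y) ∈ {p : (ℕ → Bool) × (ℕ → Bool) | PiNat.res p.1 n ≠ PiNat.res p.2 n} := hcon
      rw [he] at this
      exact this
    · obtain ⟨p, hp, hmin⟩ := hcl.exists_isMinOn hne'
        (f := fun p : (ℕ → Bool) × (ℕ → Bool) => dist (f p.1) (f p.2)) (by fun_prop)
      refine ⟨dist (f p.1) (f p.2), ?_, fun x y hxy => ?_⟩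
      · rw [dist_pos]
        intro h
        apply hp
        rw [hfi h]
      · by_contra hcon
        have h3 := hmin (show (x, y) ∈ {p : (ℕ → Bool) × (ℕ → Bool) |
          PiNat.res p.1 n ≠ PiNat.res p.2 n} from hcon)
        simp only [mem_setOf_eq] at h3
        linarith
  refine ⟨δ, hδ, fun F hF hnt hd => hsplitF F hF hnt n fun x y hx hy => hδ2 x y (hd _ hx _ hy)⟩

end Pool.Agent.J6H10.PF
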