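import Pool.Agent.J6H10.PF.Fus

/-!
# Perfect sets and closed relations between three points with the `K`-point property
-/

set_option autoImplicit false

namespace Pool.Agent.J6H10.PF

open Set Filter Metric Function
open scoped Topology

variable {X : Type*} [MetricSpace X] [CompleteSpace X]

omit [CompleteSpace X] in
/-- two points ordered by an injective function -/
theorem two_lt {φ : X → ℝ} {Q : Set X} (hQ : PN Q) (hi : InjOn φ Q) :
    ∃ x ∈ Q, ∃ y ∈ Q, φ x < φ y := by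
  obtain ⟨x, hx, y, hy, hne⟩ := two hQ
  rcases lt_or_gt_of_ne (fun h => hne (hi hx hy h)) with h | h
  · exact ⟨x, hx, y, hy, h⟩
  · exact ⟨y, hy, x, hx, h⟩

/-- finite closed covers of the pairs -/
theorem pair_cover {φ : X → ℝ} (hφ : Continuous φ) {ι : Type} (I : Finset ι)
    (C : ι → Set (X × X)) (hC : ∀ i, IsClosed (C i)) :
    ∀ {Q : Set X}, PN Q → InjOn φ Q → (∀ y ∈ Q, ∀ z ∈ Q, φ y < φ z → ∃ i ∈ I, (y, z) ∈ C i) →
    ∃ i ∈ I, ∃ Q' ⊆ Q, PN Q' ∧ ∀ y ∈ Q', ∀ z ∈ Q', φ y < φ z → (y, z) ∈ C i := by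
  classical
  induction I using Finset.induction_on with
  | empty =>
    intro Q hQ hi h
    obtain ⟨x, hx, y, hy, hxy⟩ := two_lt hQ hi
    obtain ⟨i, hi', -⟩ := h x hx y hy hxy
    exact absurd hi' (Finset.notMem_empty i)
  | insert i0 J hJ ih =>
    intro Q hQ hi h
    by_cases hgood : ∃ Q' ⊆ Q, PN Q' ∧ ∀ y ∈ Q', ∀ z ∈ Q', φ y < φ z → (y, z) ∈ C i0
    · obtain ⟨Q', h1, h2, h3⟩ := hgood
      exact ⟨i0, Finset.mem_insert_self _ _, Q', h1, h2, h3⟩
    · push Not at hgood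
      obtain ⟨Q', h1, h2, -, h3⟩ := fusion
        (fun _ A B => ∀ a ∈ A, ∀ b ∈ B, φ a < φ b ∧ (a, b) ∉ C i0)
        (fun n A B A' B' h hA hB a ha b hb => h a (hA ha) b (hB hb)) hQ (by
          intro n Q1 hQ1 hQ1Q
          obtain ⟨y, hy, z, hz, hyz, hn⟩ := hgood Q1 hQ1Q hQ1
          have hopen : IsOpen ({p : X × X | φ p.1 < φ p.2} ∩ (C i0)ᶜ) := by
            refine IsOpen.inter ?_ (hC i0).isOpen_compl
            exact isOpen_lt (by fun_prop) (by fun_prop)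
          obtain ⟨U, V, hU, hV, hyU, hzV, hUV⟩ := isOpen_prod_iff.1 hopen y z ⟨hyz, hn⟩
          obtain ⟨A, hA1, hA2, hA3, -⟩ := piece hQ1 hU hy hyU
          obtain ⟨B, hB1, hB2, hB3, -⟩ := piece hQ1 hV hz hzV
          refine ⟨A, B, hA1, hB1, hA2, hB2, ?_, fun a ha b hb => ?_⟩
          · rw [Set.disjoint_left]
            intro a ha hb
            have : φ a < φ a := (hUV (Set.mk_mem_prod (hA3 ha) (hB3 hb))).1
            exact lt_irrefl _ this
          · exact hUV (Set.mk_mem_prod (hA3 ha) (hB3 hb)))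
      obtain ⟨δ, hδ, h4⟩ := h3 0
      -- all pairs avoid `C i0`; to be independent of the distance we take a small piece
      obtain ⟨x0, hx0⟩ := h2.2
      obtain ⟨Q2, h5, h6, h7, -⟩ := piece h2 (U := Metric.ball x0 (δ / 2)) Metric.isOpen_ball hx0
        (Metric.mem_ball_self (by positivity))
      have h8 : ∀ y ∈ Q2, ∀ z ∈ Q2, φ y < φ z → (y, z) ∉ C i0 := by
        intro y hy z hz hyz
        obtain ⟨m, -, A, B, hR, hF, hFA, hFB⟩ := h4 {y, z}
          (by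
            rintro w (rfl | rfl)
            · exact h5 hy
            · exact h5 hz)
          ⟨y, Or.inl rfl, z, Or.inr rfl, fun h => by rw [h] at hyz; exact lt_irrefl _ hyz⟩
          (by
            have hd : ∀ w ∈ Q2, dist w x0 < δ / 2 := fun w hw => Metric.mem_ball.1 (h7 hw)
            have : ∀ w ∈ Q2, ∀ w' ∈ Q2, dist w w' < δ := by
              intro w hw w' hw'
              calc dist w w' ≤ dist w x0 + dist w' x0 := dist_triangle_right _ _ _
                _ < δ / 2 + δ / 2 := add_lt_add (hd w hw) (hd w' hw')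
                _ = δ := by ring
            have hin : ∀ w ∈ ({y, z} : Set X), w ∈ Q2 := by
              rintro w (rfl | rfl)
              · exact hy
              · exact hz
            exact fun w hw w' hw' => this w (hin w hw) w' (hin w' hw'))
        have hAB : ∀ w ∈ A, w ∉ B := fun w h1 h2 => lt_irrefl _ (hR w h1 w h2).1
        obtain ⟨w, hw1, hw2⟩ := hFA
        obtain ⟨w', hw3, hw4⟩ := hFB
        have hlt := hR w hw2 w' hw4
        rcases hw1 with rfl | rfl <;> rcases hw3 with rfl | rfl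
        · exact absurd hw4 (hAB _ hw2)
        · exact hlt.2
        · exact absurd hlt.1 (not_lt.2 hyz.le)
        · exact absurd hw4 (hAB _ hw2)
      obtain ⟨i, hi1, Q3, hQ3, hQ4, hQ5⟩ := ih h6 (hi.mono (h5.trans h1)) (by
        intro y hy z hz hyz
        obtain ⟨i, hi1, hi2⟩ := h y (h1 (h5 hy)) z (h1 (h5 hz)) hyz
        rcases Finset.mem_insert.1 hi1 with rfl | hi1
        · exact absurd hi2 (h8 y hy z hz hyz)
        · exact ⟨i, hi1, hi2⟩)
      exact ⟨i, Finset.mem_insert_of_mem hi1, Q3, hQ3.trans (h5.trans h1), hQ4, hQ5⟩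

/-- bad combs: `r` open sets and a last one -/
structure Bad (φ : X → ℝ) (E : X → X → X → Prop) (Q : Set X) (r : ℕ) (U : ℕ → Set X) (V : Set X) :
    Prop where
  oU : ∀ i < r, IsOpen (U i)
  nU : ∀ i < r, (Q ∩ U i).Nonempty
  oV : IsOpen V
  nV : (Q ∩ V).Nonempty
  ltU : ∀ i j, i < j → j < r → ∀ x ∈ Q ∩ U i, ∀ y ∈ Q ∩ U j, φ x < φ y
  ltV : ∀ i < r, ∀ x ∈ Q ∩ U i, ∀ y ∈ Q ∩ V, φ x < φ y
  bU : ∀ i j k, i < j → j < k → k < r → ∀ x ∈ Q ∩ U i, ∀ y ∈ Q ∩ U j, ∀ z ∈ Q ∩ U k, ¬ E x y z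
  bV : ∀ i j, i < j → j < r → ∀ x ∈ Q ∩ U i, ∀ y ∈ Q ∩ U j, ∀ z ∈ Q ∩ V, ¬ E x y z

/-- the `K`-point property -/
def KP (φ : X → ℝ) (E : X → X → X → Prop) (Q : Set X) (K : ℕ) : Prop :=
  ∀ x : Fin K → X, (∀ i, x i ∈ Q) → StrictMono (fun i => φ (x i)) →
    ∃ i j k, i < j ∧ j < k ∧ E (x i) (x j) (x k)

omit [MetricSpace X] [CompleteSpace X] in
theorem KP.mono {φ : X → ℝ} {E : X → X → X → Prop} {Q Q' : Set X} {K : ℕ} (h : KP φ E Q K)
    (hQ : Q' ⊆ Q) : KP φ E Q' K := fun x hx hm => h x (fun i => hQ (hx i)) hm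

omit [CompleteSpace X] in
theorem Bad.lt_K {φ : X → ℝ} {E : X → X → X → Prop} {Q : Set X} {K r : ℕ} {U : ℕ → Set X} {V : Set X}
    (hK : KP φ E Q K) (hb : Bad φ E Q r U V) : r < K := by
  by_contra hle
  push Not at hle
  have : Nonempty X := ⟨hb.nV.choose⟩
  choose! x hx using hb.nU
  obtain ⟨i, j, k, hij, hjk, hE⟩ := hK (fun i => x i) (fun i => (hx i (by omega)).1)
    (fun i j hij => hb.ltU i j hij (by omega) _ (hx i (by omega)) _ (hx j (by omega)))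
  exact hb.bU i j k hij hjk (by omega) _ (hx i (by omega)) _ (hx j (by omega)) _ (hx k (by omega)) hE

/-- **Splitting.** -/
theorem split_left {φ : X → ℝ} (hφ : Continuous φ) {E : X → X → X → Prop}
    (hE : IsClosed {p : X × X × X | E p.1 p.2.1 p.2.2}) {Q : Set X} (hQ : PN Q) (hi : InjOn φ Q)
    {K : ℕ} (hK : KP φ E Q K) :
    ∃ A B, A ⊆ Q ∧ B ⊆ Q ∧ PN A ∧ PN B ∧ (∀ a ∈ A, ∀ b ∈ B, φ a < φ b) ∧
      ∀ a ∈ A, ∀ y ∈ B, ∀ z ∈ B, φ y < φ z → E a y z := by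
  classical
  have : Nonempty X := ⟨hQ.2.choose⟩
  -- a bad comb with one set
  have hone : ∃ U V, Bad φ E Q 1 U V := by
    obtain ⟨x, hx, y, hy, hxy⟩ := two_lt hQ hi
    refine ⟨fun _ => {w | φ w < (φ x + φ y) / 2}, {w | (φ x + φ y) / 2 < φ w}, ?_⟩
    refine ⟨fun i _ => isOpen_lt hφ continuous_const, fun i _ => ⟨x, hx, ?_⟩,
      isOpen_lt continuous_const hφ, ⟨y, hy, ?_⟩, fun i j hij hj => by omega, ?_,
      fun i j k hij hjk hk => by omega, fun i j hij hj => by omega⟩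
    · show φ x < (φ x + φ y) / 2
      linarith
    · show (φ x + φ y) / 2 < φ y
      linarith
    · rintro i _ w ⟨_, hw⟩ w' ⟨_, hw'⟩
      exact lt_trans (show φ w < (φ x + φ y) / 2 from hw) hw'
  -- a maximal one
  obtain ⟨r, hr1, ⟨U, V, hb⟩, hmax⟩ : ∃ r, 1 ≤ r ∧ (∃ U V, Bad φ E Q r U V) ∧
      ¬ ∃ U V, Bad φ E Q (r + 1) U V := by
    by_contra hcon
    push Not at hcon
    have : ∀ r, 1 ≤ r → ∃ U V, Bad φ E Q r U V := by
      intro r hr
      induction r, hr using Nat.le_induction with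
      | base => exact hone
      | succ n hn ih =>
        obtain ⟨U, V, h⟩ := ih
        exact hcon n hn ⟨U, V, h⟩
    obtain ⟨U, V, h⟩ := this (K + 1) (by omega)
    have := h.lt_K hK
    omega
  -- every pair in the last set belongs to one of `r` closed sets
  have hcov : ∀ y ∈ Q ∩ V, ∀ z ∈ Q ∩ V, φ y < φ z → ∃ i < r, ∀ x ∈ Q ∩ U i, E x y z := by
    intro y hy z hz hyz
    by_contra hcon
    push Not at hcon
    choose! x hx hxE using hcon
    -- neighbourhoods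
    have hnb : ∀ i, ∃ (O O1 O2 : Set X), IsOpen O ∧ IsOpen O1 ∧ IsOpen O2 ∧ (i < r → x i ∈ O) ∧ y ∈ O1 ∧
        z ∈ O2 ∧ (i < r → ∀ a ∈ O, ∀ b ∈ O1, ∀ c ∈ O2, ¬ E a b c) := by
      intro i
      by_cases hir : i < r
      · have h1 : (x i, y, z) ∈ {p : X × X × X | E p.1 p.2.1 p.2.2}ᶜ := hxE i hir
        obtain ⟨O, O', hO, hO', hxO, hyO, hsub⟩ := isOpen_prod_iff.1 hE.isOpen_compl _ _ h1
        obtain ⟨O1, O2, hO1, hO2, hy1, hz2, hsub2⟩ := isOpen_prod_iff.1 hO' _ _ hyO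
        refine ⟨O, O1, O2, hO, hO1, hO2, fun _ => hxO, hy1, hz2, fun _ a ha b hb c hc => ?_⟩
        exact hsub (Set.mk_mem_prod ha (hsub2 (Set.mk_mem_prod hb hc)))
      · exact ⟨univ, univ, univ, isOpen_univ, isOpen_univ, isOpen_univ, fun h => absurd h hir, mem_univ _,
          mem_univ _, fun h => absurd h hir⟩
    choose O O1 O2 hO hO1 hO2 hxO hyO hzO hno using hnb
    apply hmax
    refine ⟨fun i => if i < r then U i ∩ O i else
        V ∩ (⋂ i ∈ Finset.range r, O1 i) ∩ {w | φ w < (φ y + φ z) / 2},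
      V ∩ (⋂ i ∈ Finset.range r, O2 i) ∩ {w | (φ y + φ z) / 2 < φ w}, ?_⟩
    have hoY : IsOpen (V ∩ (⋂ i ∈ Finset.range r, O1 i) ∩ {w | φ w < (φ y + φ z) / 2}) :=
      (hb.oV.inter (isOpen_biInter_finset fun i _ => hO1 i)).inter (isOpen_lt hφ continuous_const)
    have hoZ : IsOpen (V ∩ (⋂ i ∈ Finset.range r, O2 i) ∩ {w | (φ y + φ z) / 2 < φ w}) :=
      (hb.oV.inter (isOpen_biInter_finset fun i _ => hO2 i)).inter (isOpen_lt continuous_const hφ)
    have hU' : ∀ i, i < r → (if i < r then U i ∩ O i else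
        V ∩ (⋂ i ∈ Finset.range r, O1 i) ∩ {w | φ w < (φ y + φ z) / 2}) = U i ∩ O i := fun i h => if_pos h
    have hUr : ∀ i, ¬ i < r → (if i < r then U i ∩ O i else
        V ∩ (⋂ i ∈ Finset.range r, O1 i) ∩ {w | φ w < (φ y + φ z) / 2}) =
          V ∩ (⋂ i ∈ Finset.range r, O1 i) ∩ {w | φ w < (φ y + φ z) / 2} := fun i h => if_neg h
    refine ⟨?_, ?_, hoZ, ?_, ?_, ?_, ?_, ?_⟩
    · intro i _
      beta_reduce
      by_cases h : i < r
      · rw [hU' i h]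
        exact (hb.oU i h).inter (hO i)
      · rw [hUr i h]
        exact hoY
    · intro i _
      beta_reduce
      by_cases h : i < r
      · rw [hU' i h]
        exact ⟨x i, (hx i h).1, (hx i h).2, hxO i h⟩
      · rw [hUr i h]
        refine ⟨y, hy.1, ⟨hy.2, Set.mem_iInter₂.2 fun i _ => hyO i⟩, ?_⟩
        show φ y < (φ y + φ z) / 2
        linarith
    · refine ⟨z, hz.1, ⟨hz.2, Set.mem_iInter₂.2 fun i _ => hzO i⟩, ?_⟩
      show (φ y + φ z) / 2 < φ z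
      linarith
    · intro i j hij hj a ha b hb'
      beta_reduce at ha hb'
      rw [hU' i (by omega)] at ha
      by_cases h : j < r
      · rw [hU' j h] at hb'
        exact hb.ltU i j hij h a ⟨ha.1, ha.2.1⟩ b ⟨hb'.1, hb'.2.1⟩
      · rw [hUr j h] at hb'
        exact hb.ltV i (by omega) a ⟨ha.1, ha.2.1⟩ b ⟨hb'.1, hb'.2.1.1⟩
    · intro i _ a ha b hb'
      beta_reduce at ha
      by_cases h : i < r
      · rw [hU' i h] at ha
        exact hb.ltV i h a ⟨ha.1, ha.2.1⟩ b ⟨hb'.1, hb'.2.1.1⟩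
      · rw [hUr i h] at ha
        exact lt_trans (show φ a < (φ y + φ z) / 2 from ha.2.2) hb'.2.2
    · intro i j k hij hjk hk a ha b hb' c hc
      beta_reduce at ha hb' hc
      rw [hU' i (by omega)] at ha
      rw [hU' j (by omega)] at hb'
      by_cases h : k < r
      · rw [hU' k h] at hc
        exact hb.bU i j k hij hjk h a ⟨ha.1, ha.2.1⟩ b ⟨hb'.1, hb'.2.1⟩ c ⟨hc.1, hc.2.1⟩
      · rw [hUr k h] at hc
        exact hb.bV i j hij (by omega) a ⟨ha.1, ha.2.1⟩ b ⟨hb'.1, hb'.2.1⟩ c ⟨hc.1, hc.2.1.1⟩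
    · intro i j hij hj a ha b hb' c hc
      beta_reduce at ha hb'
      rw [hU' i (by omega)] at ha
      by_cases h : j < r
      · rw [hU' j h] at hb'
        exact hb.bV i j hij h a ⟨ha.1, ha.2.1⟩ b ⟨hb'.1, hb'.2.1⟩ c ⟨hc.1, hc.2.1.1⟩
      · rw [hUr j h] at hb'
        have h1 := Set.mem_iInter₂.1 hb'.2.1.2 i (Finset.mem_range.2 (by omega))
        have h2 := Set.mem_iInter₂.1 hc.2.1.2 i (Finset.mem_range.2 (by omega))
        exact hno i (by omega) a ha.2.2 b h1 c h2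
  -- a perfect set inside the last set
  obtain ⟨v, hvQ, hvV⟩ := hb.nV
  obtain ⟨Q1, h1, h2, h3, -⟩ := piece hQ hb.oV hvQ hvV
  obtain ⟨i, hi1, B, hB1, hB2, hB3⟩ := pair_cover hφ (Finset.range r)
    (fun i => ⋂ x ∈ Q ∩ U i, {p : X × X | E x p.1 p.2})
    (fun i => isClosed_biInter fun x _ => hE.preimage (f := fun p : X × X => (x, p.1, p.2)) (by fun_prop))
    h2 (hi.mono h1) (by
      intro y hy z hz hyz
      obtain ⟨i, hir, hx⟩ := hcov y ⟨h1 hy, h3 hy⟩ z ⟨h1 hz, h3 hz⟩ hyz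
      exact ⟨i, Finset.mem_range.2 hir, Set.mem_iInter₂.2 fun x hx' => hx x hx'⟩)
  have hir := Finset.mem_range.1 hi1
  obtain ⟨w, hwQ, hwU⟩ := hb.nU i hir
  obtain ⟨A, hA1, hA2, hA3, -⟩ := piece hQ (hb.oU i hir) hwQ hwU
  refine ⟨A, B, hA1, hB1.trans h1, hA2, hB2, fun a ha b hb' => ?_, fun a ha y hy z hz hyz => ?_⟩
  · exact hb.ltV i hir a ⟨hA1 ha, hA3 ha⟩ b ⟨h1 (hB1 hb'), h3 (hB1 hb')⟩
  · exact Set.mem_iInter₂.1 (hB3 y hy z hz hyz) a ⟨hA1 ha, hA3 ha⟩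

/-- one half of the triples -/
theorem left_pass {φ : X → ℝ} (hφ : Continuous φ) {E : X → X → X → Prop}
    (hE : IsClosed {p : X × X × X | E p.1 p.2.1 p.2.2}) {Q : Set X} (hQ : PN Q) (hi : InjOn φ Q)
    {K : ℕ} (hK : KP φ E Q K) :
    ∃ Q' ⊆ Q, PN Q' ∧ ∀ x ∈ Q', ∀ y ∈ Q', ∀ z ∈ Q', φ x < φ y → φ y < φ z →
      E x y z ∨ φ y - φ x < φ z - φ y := by
  obtain ⟨Q', h1, h2, -, h3⟩ := fusion
    (fun _ A B => (∀ a ∈ A, ∀ b ∈ B, φ a < φ b) ∧ (∀ a ∈ A, ∀ y ∈ B, ∀ z ∈ B, φ y < φ z → E a y z) ∧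
      (∀ a ∈ A, ∀ a' ∈ A, ∀ b ∈ B, φ a' - φ a < φ b - φ a'))
    (fun n A B A' B' h hA hB => ⟨fun a ha b hb => h.1 a (hA ha) b (hB hb),
      fun a ha y hy z hz => h.2.1 a (hA ha) y (hB hy) z (hB hz),
      fun a ha a' ha' b hb => h.2.2 a (hA ha) a' (hA ha') b (hB hb)⟩) hQ (by
      intro n Q1 hQ1 hQ1Q
      obtain ⟨A, B, hA, hB, hA2, hB2, hlt, hAB⟩ := split_left hφ hE hQ1 (hi.mono hQ1Q) (hK.mono hQ1Q)
      obtain ⟨a0, ha0⟩ := hA2.2
      obtain ⟨b0, hb0⟩ := hB2.2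
      have hab := hlt a0 ha0 b0 hb0
      obtain ⟨A', h4, h5, h6, -⟩ := piece hA2 (U := {w | |φ w - φ a0| < (φ b0 - φ a0) / 8})
        (isOpen_lt (by fun_prop) continuous_const) ha0 (by
          show |φ a0 - φ a0| < (φ b0 - φ a0) / 8
          rw [sub_self, abs_zero]
          linarith)
      obtain ⟨B', h7, h8, h9, -⟩ := piece hB2 (U := {w | |φ w - φ b0| < (φ b0 - φ a0) / 8})
        (isOpen_lt (by fun_prop) continuous_const) hb0 (by
          show |φ b0 - φ b0| < (φ b0 - φ a0) / 8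
          rw [sub_self, abs_zero]
          linarith)
      refine ⟨A', B', h4.trans hA, h7.trans hB, h5, h8, ?_, fun a ha b hb => hlt a (h4 ha) b (h7 hb),
        fun a ha y hy z hz => hAB a (h4 ha) y (h7 hy) z (h7 hz), fun a ha a' ha' b hb => ?_⟩
      · rw [Set.disjoint_left]
        intro a ha hb
        exact lt_irrefl _ (hlt a (h4 ha) a (h7 hb))
      · have e1 := abs_lt.1 (show |φ a - φ a0| < (φ b0 - φ a0) / 8 from h6 ha)
        have e2 := abs_lt.1 (show |φ a' - φ a0| < (φ b0 - φ a0) / 8 from h6 ha')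
        have e3 := abs_lt.1 (show |φ b - φ b0| < (φ b0 - φ a0) / 8 from h9 hb)
        linarith [e1.1, e2.2, e3.1])
  obtain ⟨δ, hδ, h4⟩ := h3 0
  obtain ⟨x0, hx0⟩ := h2.2
  obtain ⟨Q2, h5, h6, h7, -⟩ := piece h2 (U := Metric.ball x0 (δ / 2)) Metric.isOpen_ball hx0
    (Metric.mem_ball_self (by positivity))
  refine ⟨Q2, h5.trans h1, h6, fun x hx y hy z hz hxy hyz => ?_⟩
  have hin : ∀ w ∈ ({x, y, z} : Set X), w ∈ Q2 := by
    rintro w (rfl | rfl | rfl)
    · exact hx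
    · exact hy
    · exact hz
  obtain ⟨m, -, A, B, ⟨hR1, hR2, hR3⟩, hF, hFA, hFB⟩ := h4 {x, y, z} (fun w hw => h5 (hin w hw))
    ⟨x, Or.inl rfl, y, Or.inr (Or.inl rfl), fun h => by rw [h] at hxy; exact lt_irrefl _ hxy⟩
    (by
      have hd : ∀ w ∈ Q2, dist w x0 < δ / 2 := fun w hw => Metric.mem_ball.1 (h7 hw)
      intro w hw w' hw'
      calc dist w w' ≤ dist w x0 + dist w' x0 := dist_triangle_right _ _ _
        _ < δ / 2 + δ / 2 := add_lt_add (hd w (hin w hw)) (hd w' (hin w' hw'))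
        _ = δ := by ring)
  have hmem : ∀ w ∈ ({x, y, z} : Set X), w ∈ A ∨ w ∈ B := fun w hw => hF hw
  -- the smallest point is in `A`, the largest one in `B`
  have hxA : x ∈ A := by
    rcases hmem x (Or.inl rfl) with h | h
    · exact h
    · exfalso
      obtain ⟨w, hw1, hw2⟩ := hFA
      have := hR1 w hw2 x h
      rcases hw1 with rfl | rfl | rfl <;> linarith
  have hzB : z ∈ B := by
    rcases hmem z (Or.inr (Or.inr rfl)) with h | h
    · exfalso
      obtain ⟨w, hw1, hw2⟩ := hFB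
      have := hR1 z h w hw2
      rcases hw1 with rfl | rfl | rfl <;> linarith
    · exact h
  rcases hmem y (Or.inr (Or.inl rfl)) with h | h
  · exact Or.inr (hR3 x hxA y h z hzB)
  · exact Or.inl (hR2 x hxA y h z hzB hyz)

/-- **All triples.** -/
theorem all_triples {φ : X → ℝ} (hφ : Continuous φ) {E : X → X → X → Prop}
    (hE : IsClosed {p : X × X × X | E p.1 p.2.1 p.2.2}) {Q : Set X} (hQ : PN Q) (hi : InjOn φ Q)
    {K : ℕ} (hK : KP φ E Q K) :
    ∃ Q' ⊆ Q, PN Q' ∧ ∀ x ∈ Q', ∀ y ∈ Q', ∀ z ∈ Q', φ x < φ y → φ y < φ z → E x y z := by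
  obtain ⟨Q1, h1, h2, h3⟩ := left_pass hφ hE hQ hi hK
  have hK' : KP (fun w => - φ w) (fun x y z => E z y x) Q1 K := by
    intro x hx hm
    obtain ⟨i, j, k, hij, hjk, hE'⟩ := hK (fun i => x (Fin.rev i)) (fun i => h1 (hx _)) (by
      intro i j hij
      have := hm (Fin.rev_lt_rev.2 hij)
      simp only at this
      show φ (x (Fin.rev i)) < φ (x (Fin.rev j))
      linarith)
    exact ⟨Fin.rev k, Fin.rev j, Fin.rev i, Fin.rev_lt_rev.2 hjk, Fin.rev_lt_rev.2 hij, hE'⟩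
  obtain ⟨Q2, h4, h5, h6⟩ := left_pass (φ := fun w => - φ w) (by fun_prop) (E := fun x y z => E z y x)
    (hE.preimage (f := fun p : X × X × X => (p.2.2, p.2.1, p.1)) (by fun_prop)) h2
    (fun x hx y hy hxy => hi (h1 hx) (h1 hy) (neg_injective hxy)) hK'
  refine ⟨Q2, h4.trans h1, h5, fun x hx y hy z hz hxy hyz => ?_⟩
  rcases h3 x (h4 hx) y (h4 hy) z (h4 hz) hxy hyz with h | h
  · exact h
  · rcases h6 z hz y hy x hx (neg_lt_neg hyz) (neg_lt_neg hxy) with h' | h'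
    · exact h'
    · exfalso
      linarith

end Pool.Agent.J6H10.PF
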