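import Pool.Agent.J6H10.PF.Gal
import Pool.Agent.W126.RecSum

/-!
# Perfect sets all of whose triples give limit points of pairs of consecutive gaps
-/

set_option autoImplicit false

namespace Pool.Agent.J6H10.PF

open Set Filter Metric Function
open scoped Topology
open Pool.Agent.W126.RecSum (LimH Scale lpH)
open Pool.Agent.H256R2.SC (ff)
open Pool.Agent.H312R2.RG.C3 (ff_tendsto)

/-- the set of the limit points is closed -/
theorem isClosed_LimH (H : ℝ → ℝ) (m q r : ℕ) : IsClosed (LimH H m q r) := by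
  apply isClosed_of_closure_subset
  intro v hv ε hε
  obtain ⟨w, hw, hd⟩ := Metric.mem_closure_iff.1 hv (ε / 2) (by positivity)
  refine (hw (ε / 2) (by positivity)).mono fun n hn => ⟨hn.1, fun i => ?_⟩
  have h1 := hn.2 i
  have h2 : |v i - w i| < ε / 2 := by
    have := dist_le_pi_dist v w i
    rw [Real.dist_eq] at this
    exact this.trans_lt hd
  calc |((Nat.nth Nat.Prime (n + i + 1) : ℝ) - Nat.nth Nat.Prime (n + i)) /
        H (Nat.nth Nat.Prime n) - v i|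
      = |(((Nat.nth Nat.Prime (n + i + 1) : ℝ) - Nat.nth Nat.Prime (n + i)) /
        H (Nat.nth Nat.Prime n) - w i) - (v i - w i)| := by ring_nf
    _ ≤ _ := abs_sub _ _
    _ < ε / 2 + ε / 2 := add_lt_add h1 h2
    _ = ε := by ring

/-- the relation between three points -/
def RelH {X : Type*} (φ : X → ℝ) (H : ℝ → ℝ) (q r : ℕ) (x y z : X) : Prop :=
  ![φ y - φ x, φ z - φ y] ∈ LimH H 2 q r

theorem relH_closed {X : Type*} [TopologicalSpace X] {φ : X → ℝ} (hφ : Continuous φ) (H : ℝ → ℝ)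
    (q r : ℕ) : IsClosed {p : X × X × X | RelH φ H q r p.1 p.2.1 p.2.2} := by
  refine (isClosed_LimH H 2 q r).preimage
    (f := fun p : X × X × X => ![φ p.2.1 - φ p.1, φ p.2.2 - φ p.2.1]) ?_
  refine continuous_pi fun i => ?_
  fin_cases i
  · simp only [Fin.zero_eta, Fin.isValue, Matrix.cons_val_zero]
    fun_prop
  · simp only [Fin.mk_one, Fin.isValue, Matrix.cons_val_one, Matrix.cons_val_fin_one]
    fun_prop

/-- the `K`-point property -/
theorem relH_KP {H : ℝ → ℝ} (hH : Scale H) (hup : ∃ C : ℝ, ∀ᶠ x : ℝ in atTop, H x ≤ C * ff x)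
    {q r : ℕ} (hq : Squarefree q) (hr : r.Coprime q) :
    ∃ (B : ℝ) (K : ℕ), 0 < B ∧ ∀ {X : Type*} (φ : X → ℝ) (Q : Set X),
      (∀ x ∈ Q, ∀ y ∈ Q, φ y - φ x ≤ B) → KP φ (RelH φ H q r) Q K := by
  obtain ⟨K, c, hc, hl⟩ := lpH 2
  obtain ⟨C, hC⟩ := hup
  refine ⟨c / (|C| + 1), K, by positivity, ?_⟩
  intro X φ Q hQ x hx hm
  have hev : ∀ᶠ t : ℝ in atTop, c / (|C| + 1) * H t ≤ c * ff t := by
    filter_upwards [hC, ff_tendsto.eventually_gt_atTop 0] with t ht ht0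
    have h1 : H t ≤ (|C| + 1) * ff t := ht.trans (mul_le_mul_of_nonneg_right
      (by linarith [le_abs_self C]) ht0.le)
    calc c / (|C| + 1) * H t ≤ c / (|C| + 1) * ((|C| + 1) * ff t) :=
          mul_le_mul_of_nonneg_left h1 (by positivity)
      _ = c * ff t := by field_simp
  rcases K with _ | K
  · obtain ⟨j, -, -⟩ := hl H hH _ (by positivity) hev q hq r hr (fun i => i.elim0)
      (fun i => i.elim0) (fun i => i.elim0)
    exact (j 0).elim0
  · obtain ⟨j, hj, h⟩ := hl H hH _ (by positivity) hev q hq r hr (fun i => φ (x i) - φ (x 0))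
      (fun i i' hii => sub_lt_sub_right (hm hii) _)
      (fun i => ⟨by
        have : φ (x 0) ≤ φ (x i) := hm.monotone (Fin.zero_le i)
        linarith, hQ _ (hx 0) _ (hx i)⟩)
    refine ⟨j 0, j 1, j 2, hj (by decide), hj (by decide), ?_⟩
    unfold RelH
    convert h using 1
    funext i
    fin_cases i
    · simp
    · simp only [Fin.mk_one, Fin.isValue, Matrix.cons_val_one, Matrix.cons_val_fin_one,
        Fin.succ_one_eq_two, Fin.castSucc_one]
      ring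

variable {X : Type*} [MetricSpace X] [CompleteSpace X]

/-- all triples for the first `n` relations -/
theorem first_n {P : Set X} (φ : ℕ → X → ℝ) (hφ : ∀ s, Continuous (φ s)) (hi : ∀ s, InjOn (φ s) P)
    (E : ℕ → X → X → X → Prop) (hE : ∀ s, IsClosed {p : X × X × X | E s p.1 p.2.1 p.2.2})
    (hK : ∀ s, ∃ (B : ℝ) (K : ℕ), 0 < B ∧ ∀ Q ⊆ P, (∀ x ∈ Q, ∀ y ∈ Q, φ s y - φ s x ≤ B) →
      KP (φ s) (E s) Q K) (n : ℕ) :
    ∀ Q ⊆ P, PN Q → ∃ Q' ⊆ Q, PN Q' ∧ ∀ s < n, ∀ x ∈ Q', ∀ y ∈ Q', ∀ z ∈ Q', φ s x < φ s y →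
      φ s y < φ s z → E s x y z := by
  induction n with
  | zero => exact fun Q _ hQ => ⟨Q, Subset.rfl, hQ, fun s hs => by omega⟩
  | succ n ih =>
    intro Q hQP hQ
    obtain ⟨Q1, h1, h2, h3⟩ := ih Q hQP hQ
    obtain ⟨B, K, hB, hK'⟩ := hK n
    obtain ⟨a, ha⟩ := h2.2
    obtain ⟨Q2, h4, h5, h6, -⟩ := piece h2 (U := {w | |φ n w - φ n a| < B / 2})
      (isOpen_lt (by have := hφ n; fun_prop) continuous_const) ha (by
        show |φ n a - φ n a| < B / 2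
        rw [sub_self, abs_zero]
        linarith)
    obtain ⟨Q3, h7, h8, h9⟩ := all_triples (hφ n) (hE n) h5 ((hi n).mono (h4.trans (h1.trans hQP)))
      (hK' Q2 (h4.trans (h1.trans hQP)) fun x hx y hy => by
        have e1 := abs_lt.1 (show |φ n x - φ n a| < B / 2 from h6 hx)
        have e2 := abs_lt.1 (show |φ n y - φ n a| < B / 2 from h6 hy)
        linarith [e1.1, e2.2])
    refine ⟨Q3, h7.trans (h4.trans h1), h8, fun s hs x hx y hy z hz => ?_⟩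
    rcases Nat.lt_succ_iff_lt_or_eq.1 hs with h | rfl
    · exact h3 s h x (h4 (h7 hx)) y (h4 (h7 hy)) z (h4 (h7 hz))
    · exact h9 x hx y hy z hz

/-- **Countably many relations.** -/
theorem main {P : Set X} (hP : PN P) (φ : ℕ → X → ℝ) (hφ : ∀ s, Continuous (φ s))
    (hi : ∀ s, InjOn (φ s) P)
    (E : ℕ → X → X → X → Prop) (hE : ∀ s, IsClosed {p : X × X × X | E s p.1 p.2.1 p.2.2})
    (hK : ∀ s, ∃ (B : ℝ) (K : ℕ), 0 < B ∧ ∀ Q ⊆ P, (∀ x ∈ Q, ∀ y ∈ Q, φ s y - φ s x ≤ B) →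
      KP (φ s) (E s) Q K) :
    ∃ Q ⊆ P, PN Q ∧ IsCompact Q ∧ ∀ s, ∃ δ : ℝ, 0 < δ ∧ ∀ x ∈ Q, ∀ y ∈ Q, ∀ z ∈ Q,
      dist x y < δ → dist y z < δ → dist x z < δ → φ s x < φ s y → φ s y < φ s z → E s x y z := by
  obtain ⟨Q, h1, h2, h3, h4⟩ := fusion
    (fun n A B => ∀ s < n, ∀ x ∈ A ∪ B, ∀ y ∈ A ∪ B, ∀ z ∈ A ∪ B, φ s x < φ s y →
      φ s y < φ s z → E s x y z)
    (fun n A B A' B' h hA hB s hs x hx y hy z hz => h s hs x (union_subset_union hA hB hx) y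
      (union_subset_union hA hB hy) z (union_subset_union hA hB hz)) hP (by
      intro n Q hQ hQP
      obtain ⟨Q', h1, h2, h3⟩ := first_n φ hφ hi E hE hK n Q hQP hQ
      obtain ⟨x, hx, y, hy, hne⟩ := two h2
      obtain ⟨U, V, hU, hV, hxU, hyV, hUV⟩ := t2_separation hne
      obtain ⟨A, h4, h5, h6, -⟩ := piece h2 hU hx hxU
      obtain ⟨B, h7, h8, h9, -⟩ := piece h2 hV hy hyV
      exact ⟨A, B, h4.trans h1, h7.trans h1, h5, h8, hUV.mono h6 h9,
        fun s hs x hx y hy z hz => h3 s hs x (union_subset h4 h7 hx) y (union_subset h4 h7 hy) z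
          (union_subset h4 h7 hz)⟩)
  refine ⟨Q, h1, h2, h3, fun s => ?_⟩
  obtain ⟨δ, hδ, h5⟩ := h4 (s + 1)
  refine ⟨δ, hδ, fun x hx y hy z hz hxy hyz hxz h6 h7 => ?_⟩
  obtain ⟨m, hm, A, B, hR, hF, -, -⟩ := h5 {x, y, z}
    (by
      rintro w (rfl | rfl | rfl)
      · exact hx
      · exact hy
      · exact hz)
    ⟨x, Or.inl rfl, y, Or.inr (Or.inl rfl), fun h => by rw [h] at h6; exact lt_irrefl _ h6⟩
    (by
      rintro w (rfl | rfl | rfl) w' (rfl | rfl | rfl) <;>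
        first
        | assumption
        | (rw [dist_self]; exact hδ)
        | (rw [dist_comm]; assumption))
  exact hR s (by omega) x (hF (Or.inl rfl)) y (hF (Or.inr (Or.inl rfl))) z (hF (Or.inr (Or.inr rfl)))
    h6 h7

/-- perfect sets and gaps -/
theorem mainG {P : Set X} (hP : PN P) (φ : ℕ → X → ℝ) (hφ : ∀ s, Continuous (φ s))
    (hi : ∀ s, InjOn (φ s) P) (H : ℕ → ℝ → ℝ) (hH : ∀ s, Scale (H s))
    (hup : ∀ s, ∃ C : ℝ, ∀ᶠ x : ℝ in atTop, H s x ≤ C * ff x)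
    (q r : ℕ → ℕ) (hq : ∀ s, Squarefree (q s)) (hr : ∀ s, (r s).Coprime (q s)) :
    ∃ Q ⊆ P, Perfect Q ∧ Q.Nonempty ∧ IsCompact Q ∧ ∀ s, ∃ δ : ℝ, 0 < δ ∧ ∀ x ∈ Q, ∀ y ∈ Q, ∀ z ∈ Q,
      dist x y < δ → dist y z < δ → dist x z < δ → φ s x < φ s y → φ s y < φ s z →
      ![φ s y - φ s x, φ s z - φ s y] ∈ LimH (H s) 2 (q s) (r s) := by
  obtain ⟨Q, h1, h2, h3, h4⟩ := main hP φ hφ hi (fun s => RelH (φ s) (H s) (q s) (r s))
    (fun s => relH_closed (hφ s) _ _ _) (fun s => by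
      obtain ⟨B, K, hB, h⟩ := relH_KP (hH s) (hup s) (hq s) (hr s)
      exact ⟨B, K, hB, fun Q _ hQ => h (φ s) Q hQ⟩)
  exact ⟨Q, h1, h2.1, h2.2, h3, h4⟩

end Pool.Agent.J6H10.PF
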